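import Mathlib

set_option autoImplicit false

namespace Pool.Agent.Results.MP_c8004b_pr.Q1
open Finset Classical

/-- `e : Fin N → ℝ` is a population with mean error `m` -/
def IsPop (m : ℝ) (N : ℕ) (e : Fin N → ℝ) : Prop :=
  1 ≤ N ∧ (∀ i, 0 ≤ e i ∧ e i ≤ 1) ∧ (∑ i, e i) / N = m

/-- `F_e(c)`: probability that the sum of `n` draws with replacement is at most `c` -/
noncomputable def F (n : ℕ) (c : ℝ) (N : ℕ) (e : Fin N → ℝ) : ℝ :=
  ((univ.filter (fun d : Fin n → Fin N => ∑ j, e (d j) ≤ c)).card : ℝ) / (N : ℝ) ^ n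

/-- exactly two error sizes, one of them `0` or `1` -/
def TwoSizes (N : ℕ) (e : Fin N → ℝ) : Prop :=
  (univ.image e).card = 2 ∧ (0 ∈ univ.image e ∨ 1 ∈ univ.image e)

noncomputable def e0 : Fin 8 → ℝ := ![0, 5/6, 5/6, 5/6, 5/6, 1, 1, 1]
def e0q : Fin 8 → ℚ := ![0, 5/6, 5/6, 5/6, 5/6, 1, 1, 1]

lemma e0_cast (i : Fin 8) : e0 i = (e0q i : ℝ) := by
  fin_cases i <;> simp [e0, e0q]

lemma F0 : F 2 (5/6) 8 e0 = 9 / 64 := by
  have : univ.filter (fun d : Fin 2 → Fin 8 => ∑ j, e0 (d j) ≤ 5/6) =
      univ.filter (fun d : Fin 2 → Fin 8 => ∑ j, e0q (d j) ≤ 5/6) := by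
    apply Finset.filter_congr
    intro d _
    simp only [e0_cast]
    rw [show (5/6 : ℝ) = ((5/6 : ℚ) : ℝ) by norm_num]
    exact_mod_cast Iff.rfl
  unfold F
  rw [this]
  have h : (univ.filter (fun d : Fin 2 → Fin 8 => ∑ j, e0q (d j) ≤ 5/6)).card = 9 := by
    decide +kernel
  rw [h]; norm_num

lemma two_vals {N : ℕ} (e : Fin N → ℝ) (u x : ℝ) (h : ∀ i, e i = u ∨ e i = x) :
    ∑ i, e i = u * N + (x - u) * (univ.filter (fun i => e i ≠ u)).card := by
  have : ∀ i, e i = u + (x - u) * (if e i ≠ u then 1 else 0) := by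
    intro i
    by_cases hi : e i = u
    · simp [hi]
    · have := (h i).resolve_left hi
      rw [if_pos hi, this]; ring
  rw [Finset.sum_congr rfl (fun i _ => this i), Finset.sum_add_distrib, ← Finset.mul_sum,
    Finset.card_filter]
  simp [mul_comm]

lemma bound {N : ℕ} (e : Fin N → ℝ) (hp : IsPop (19/24) N e) (ht : TwoSizes N e) :
    F 2 (5/6) N e < 9 / 64 := by
  obtain ⟨hN, h01, hm⟩ := hp
  have hN' : (0:ℝ) < N := by exact_mod_cast hN
  rw [div_eq_iff hN'.ne'] at hm
  obtain ⟨a, b, -, hab⟩ := Finset.card_eq_two.1 ht.1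
  have hv : ∀ i, e i = a ∨ e i = b := by
    intro i
    have : e i ∈ univ.image e := mem_image_of_mem e (mem_univ i)
    rw [hab] at this
    simpa using this
  have key : (∃ x, ∀ i, e i = 0 ∨ e i = x) ∨ (∃ x, ∀ i, e i = 1 ∨ e i = x) := by
    have h2 := ht.2
    rw [hab] at h2
    simp only [mem_insert, mem_singleton] at h2
    rcases h2 with (h | h) | (h | h)
    · exact Or.inl ⟨b, h ▸ hv⟩
    · exact Or.inl ⟨a, fun i => (h ▸ hv i).symm⟩
    · exact Or.inr ⟨b, h ▸ hv⟩
    · exact Or.inr ⟨a, fun i => (h ▸ hv i).symm⟩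
  unfold F
  rw [div_lt_iff₀ (by positivity)]
  rcases key with ⟨x, hx⟩ | ⟨x, hx⟩
  · have hs := two_vals e 0 x hx
    set B := univ.filter (fun i => e i ≠ 0) with hB
    have hBN : (B.card : ℝ) ≤ N := by
      have := Finset.card_le_univ B
      rw [Fintype.card_fin] at this
      exact_mod_cast this
    have hB0 : (0:ℝ) ≤ B.card := Nat.cast_nonneg _
    rw [hm] at hs
    have hBne : B.Nonempty := by
      rw [← Finset.card_pos]
      by_contra h
      have : B.card = 0 := by omega
      rw [this] at hs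
      simp only [Nat.cast_zero, mul_zero, zero_mul, add_zero] at hs
      linarith
    obtain ⟨i0, hi0⟩ := hBne
    have hx1 : x ≤ 1 := by
      have := (hx i0).resolve_left (mem_filter.1 hi0).2
      rw [← this]; exact (h01 i0).2
    have hxm : 19/24 ≤ x := by
      by_contra h
      push Not at h
      have hBp : (0:ℝ) < B.card := by exact_mod_cast Finset.card_pos.2 ⟨i0, hi0⟩
      nlinarith [mul_lt_mul_of_pos_right h hBp]
    by_cases hc : x ≤ 5/6
    · have sub : univ.filter (fun d : Fin 2 → Fin N => ∑ j, e (d j) ≤ 5/6) ⊆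
          univ \ Fintype.piFinset (fun _ => B) := by
        intro d hd
        refine mem_sdiff.2 ⟨mem_univ _, fun h => ?_⟩
        have h1 := (mem_filter.1 hd).2
        rw [Fintype.mem_piFinset] at h
        rw [Fin.sum_univ_two, (hx _).resolve_left (mem_filter.1 (h 0)).2,
          (hx _).resolve_left (mem_filter.1 (h 1)).2] at h1
        linarith
      have c := Finset.card_le_card sub
      have c2 := Finset.card_sdiff_add_card_eq_card
        (Finset.subset_univ (Fintype.piFinset (fun _ : Fin 2 => B)))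
      rw [Fintype.card_piFinset_const, Finset.card_univ, Fintype.card_fun, Fintype.card_fin,
        Fintype.card_fin] at c2
      have c3 : ((univ.filter (fun d : Fin 2 → Fin N => ∑ j, e (d j) ≤ 5/6)).card : ℝ) +
          (B.card : ℝ) ^ 2 ≤ (N:ℝ) ^ 2 := by
        have : (univ.filter (fun d : Fin 2 → Fin N => ∑ j, e (d j) ≤ 5/6)).card + B.card ^ 2
          ≤ N ^ 2 := by omega
        exact_mod_cast this
      have : 19/20 * (N:ℝ) ≤ B.card := by nlinarith
      nlinarith
    · push Not at hc
      have sub : univ.filter (fun d : Fin 2 → Fin N => ∑ j, e (d j) ≤ 5/6) ⊆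
          Fintype.piFinset (fun _ => univ \ B) := by
        intro d hd
        have h1 := (mem_filter.1 hd).2
        rw [Fin.sum_univ_two] at h1
        rw [Fintype.mem_piFinset]
        intro j
        refine mem_sdiff.2 ⟨mem_univ _, fun h => ?_⟩
        have h2 := (hx _).resolve_left (mem_filter.1 h).2
        have a0 := (h01 (d 0)).1
        have a1 := (h01 (d 1)).1
        fin_cases j
        · simp only [Fin.zero_eta] at h2; linarith
        · simp only [Fin.mk_one] at h2; linarith
      have c := Finset.card_le_card sub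
      rw [Fintype.card_piFinset_const] at c
      have c2 := Finset.card_sdiff_add_card_eq_card (Finset.subset_univ B)
      rw [Finset.card_univ, Fintype.card_fin] at c2
      have c3 : ((univ.filter (fun d : Fin 2 → Fin N => ∑ j, e (d j) ≤ 5/6)).card : ℝ) ≤
          ((univ \ B).card : ℝ) ^ 2 := by exact_mod_cast c
      have c4 : ((univ \ B).card : ℝ) + B.card = N := by exact_mod_cast c2
      have c5 : (0:ℝ) ≤ (univ \ B).card := Nat.cast_nonneg _
      have : 19/24 * (N:ℝ) ≤ B.card := by nlinarith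
      have : ((univ \ B).card : ℝ) ≤ 5/24 * N := by linarith
      nlinarith
  · have hs := two_vals e 1 x hx
    set B := univ.filter (fun i => e i ≠ 1) with hB
    have hB0 : (0:ℝ) ≤ B.card := Nat.cast_nonneg _
    rw [hm] at hs
    by_cases hc : x ≤ 5/12
    · have sub : univ.filter (fun d : Fin 2 → Fin N => ∑ j, e (d j) ≤ 5/6) ⊆
          Fintype.piFinset (fun _ => B) := by
        intro d hd
        have h1 := (mem_filter.1 hd).2
        rw [Fin.sum_univ_two] at h1
        rw [Fintype.mem_piFinset]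
        intro j
        refine mem_filter.2 ⟨mem_univ _, fun h2 => ?_⟩
        have a0 := (h01 (d 0)).1
        have a1 := (h01 (d 1)).1
        fin_cases j
        · simp only [Fin.zero_eta] at h2; linarith
        · simp only [Fin.mk_one] at h2; linarith
      have c := Finset.card_le_card sub
      rw [Fintype.card_piFinset_const] at c
      have c3 : ((univ.filter (fun d : Fin 2 → Fin N => ∑ j, e (d j) ≤ 5/6)).card : ℝ) ≤
          (B.card : ℝ) ^ 2 := by exact_mod_cast c
      have : (B.card : ℝ) ≤ 5/14 * N := by nlinarith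
      nlinarith
    · push Not at hc
      have : univ.filter (fun d : Fin 2 → Fin N => ∑ j, e (d j) ≤ 5/6) = ∅ := by
        apply Finset.filter_false_of_mem
        intro d _ h1
        rw [Fin.sum_univ_two] at h1
        rcases hx (d 0) with a0 | a0 <;> rcases hx (d 1) with a1 | a1 <;> linarith
      rw [this]
      simp only [card_empty, Nat.cast_zero]
      positivity

theorem result : ∃ (n : ℕ) (m c : ℝ), 1 ≤ n ∧ 0 < m ∧ m < 1 ∧ c < n * m ∧
    ∃ (N₀ : ℕ) (e₀ : Fin N₀ → ℝ), IsPop m N₀ e₀ ∧
      ∀ (N : ℕ) (e : Fin N → ℝ), IsPop m N e → TwoSizes N e → F n c N e < F n c N₀ e₀ := by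
  refine ⟨2, 19/24, 5/6, by norm_num, by norm_num, by norm_num, by norm_num, 8, e0,
    ⟨by norm_num, ?_, ?_⟩, ?_⟩
  · intro i; fin_cases i <;> simp [e0] <;> norm_num
  · simp [e0, Fin.sum_univ_succ]; norm_num
  · intro N e hp ht
    rw [F0]
    exact bound e hp ht

end Pool.Agent.Results.MP_c8004b_pr.Q1
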